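import Pool.Agent.F6.BigB
import Pool.Agent.F6.Main

/-!
# EF1 and approximate Pareto optimality for three agents with subadditive valuations

The conjectured value `2 ^ (-(1 - 1 / n))` is not the right one for `n = 3`: every instance with
three agents has an allocation that is EF1 and `(5000 / 7937)`-PO, and
`5000 / 7937 > 2 ^ (-(1 - 1 / 3))`.
-/

namespace Pool.Agent.Results.MP_f6d244_lc.ThreeAgents

open Pool.F6

/-- Every three agent instance with normalised monotone subadditive valuations has an EF1
allocation that is `(5000 / 7937)`-PO, where `5000 / 7937` is larger than `2 ^ (-(1 - 1 / 3))`.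
Hence it is false that for all `n ≥ 3` the supremum `alphaStar n` equals `2 ^ (-(1 - 1 / n))`. -/
theorem result :
    (Attains 3 (5000 / 7937) ∧ (2 : ℝ) ^ (-(1 - 1 / (3 : ℝ))) < 5000 / 7937) ∧
    ¬ ∀ n : ℕ, 3 ≤ n → alphaStar n = (2 : ℝ) ^ (-(1 - 1 / (n : ℝ))) :=
  ⟨⟨attains_of (fun _ _ I => inst_false I), alpha_gt⟩,
    (main_of (fun _ _ I => inst_false I)).2⟩

end Pool.Agent.Results.MP_f6d244_lc.ThreeAgents
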